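import Pool.Agent.Helper38.EC.Goals

/-! Packet KD: the differential equation of `Kb`. -/

set_option autoImplicit false

open MeasureTheory Filter Topology Set

namespace Pool.Agent.Helper49.EC.I_KD

/-- `x ^ k e^{-t x} ≤ C e^{-(t/2) x}` for `x ≥ 0`. -/
theorem pow_exp_le (k : ℕ) {t x : ℝ} (ht : 0 < t) (hx : 0 ≤ x) :
    x ^ k * Real.exp (-(t * x)) ≤
      ((k.factorial : ℝ) / (t / 2) ^ k) * Real.exp (-(t / 2) * x) := by
  have h1 := Real.pow_div_factorial_le_exp (t / 2 * x) (by positivity) k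
  have h2 : x ^ k * Real.exp (-(t * x)) =
      (((t / 2 * x) ^ k / (k.factorial : ℝ)) * Real.exp (-(t * x))) *
        ((k.factorial : ℝ) / (t / 2) ^ k) := by
    have h3 : (k.factorial : ℝ) ≠ 0 := by positivity
    have h4 : (t / 2) ^ k ≠ 0 := by positivity
    rw [mul_pow]
    field_simp
  rw [h2, mul_comm]
  refine mul_le_mul_of_nonneg_left ?_ (by positivity)
  calc ((t / 2 * x) ^ k / (k.factorial : ℝ)) * Real.exp (-(t * x))
      ≤ Real.exp (t / 2 * x) * Real.exp (-(t * x)) :=
        mul_le_mul_of_nonneg_right h1 (Real.exp_pos _).le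
    _ = Real.exp (-(t / 2) * x) := by
        rw [← Real.exp_add]
        congr 1
        ring

theorem self_le_cosh {u : ℝ} (hu : 0 ≤ u) : u ≤ Real.cosh u :=
  (Real.self_le_sinh_iff.2 hu).trans (Real.sinh_lt_cosh u).le

theorem cosh_bound (k : ℕ) {t u : ℝ} (ht : 0 < t) (hu : 0 ≤ u) :
    Real.cosh u ^ k * Real.exp (-(t * Real.cosh u)) ≤
      ((k.factorial : ℝ) / (t / 2) ^ k) * Real.exp (-(t / 2) * u) := by
  refine (pow_exp_le k ht (Real.cosh_pos u).le).trans ?_
  refine mul_le_mul_of_nonneg_left ?_ (by positivity)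
  apply Real.exp_le_exp.2
  have := self_le_cosh hu
  nlinarith

theorem integrable_bd (k : ℕ) {t : ℝ} (ht : 0 < t) :
    IntegrableOn (fun u : ℝ => ((k.factorial : ℝ) / (t / 2) ^ k) * Real.exp (-(t / 2) * u))
      (Ioi 0) :=
  (exp_neg_integrableOn_Ioi 0 (by positivity : 0 < t / 2)).const_mul _

theorem integrable_k (k : ℕ) {t : ℝ} (ht : 0 < t) :
    IntegrableOn (fun u : ℝ => Real.cosh u ^ k * Real.exp (-(t * Real.cosh u))) (Ioi 0) := by
  refine (integrable_bd k ht).mono' ?_ ?_
  · apply Continuous.aestronglyMeasurable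
    have := Real.continuous_cosh
    fun_prop
  · filter_upwards [ae_restrict_mem measurableSet_Ioi] with u hu
    rw [Real.norm_of_nonneg (by have := Real.cosh_pos u; positivity)]
    exact cosh_bound k ht (le_of_lt hu)

/-- `F_k(t)`. -/
noncomputable def FK (k : ℕ) (t : ℝ) : ℝ :=
  ∫ u in Ioi (0:ℝ), Real.cosh u ^ k * Real.exp (-(t * Real.cosh u))

theorem hasDeriv_FK (k : ℕ) {t : ℝ} (ht : 0 < t) : HasDerivAt (FK k) (-(FK (k + 1) t)) t := by
  have hs : Ioi (t / 2) ∈ 𝓝 t := Ioi_mem_nhds (by linarith)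
  have key := hasDerivAt_integral_of_dominated_loc_of_deriv_le
    (μ := volume.restrict (Ioi (0:ℝ)))
    (F := fun (s : ℝ) (u : ℝ) => Real.cosh u ^ k * Real.exp (-(s * Real.cosh u)))
    (F' := fun (s : ℝ) (u : ℝ) => -(Real.cosh u ^ (k + 1) * Real.exp (-(s * Real.cosh u))))
    (x₀ := t) (s := Ioi (t / 2))
    (bound := fun u => Real.cosh u ^ (k + 1) * Real.exp (-(t / 2 * Real.cosh u)))
    hs ?_ ?_ ?_ ?_ ?_ ?_
  · have h2 := key.2
    rw [integral_neg] at h2
    exact h2
  · filter_upwards with s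
    apply Continuous.aestronglyMeasurable
    have := Real.continuous_cosh
    fun_prop
  · exact integrable_k k ht
  · apply Continuous.aestronglyMeasurable
    have := Real.continuous_cosh
    fun_prop
  · filter_upwards with u s hs
    have hc := Real.cosh_pos u
    rw [norm_neg, Real.norm_of_nonneg (by positivity)]
    refine mul_le_mul_of_nonneg_left ?_ (by positivity)
    apply Real.exp_le_exp.2
    have : t / 2 < s := hs
    nlinarith
  · exact integrable_k (k + 1) (by positivity)
  · filter_upwards with u s hs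
    have h1 : HasDerivAt (fun x : ℝ => -(x * Real.cosh u)) (-(1 * Real.cosh u)) s :=
      ((hasDerivAt_id s).mul_const (Real.cosh u)).neg
    have h2 := (h1.exp).const_mul (Real.cosh u ^ k)
    exact h2.congr_deriv (by ring)

theorem relation {t : ℝ} (ht : 0 < t) : FK 1 t - t * FK 2 t + t * FK 0 t = 0 := by
  have hd : ∀ u : ℝ, HasDerivAt (fun u => Real.sinh u * Real.exp (-(t * Real.cosh u)))
      (Real.cosh u ^ 1 * Real.exp (-(t * Real.cosh u)) -
        t * (Real.cosh u ^ 2 * Real.exp (-(t * Real.cosh u))) +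
        t * (Real.cosh u ^ 0 * Real.exp (-(t * Real.cosh u)))) u := by
    intro u
    have h1 : HasDerivAt (fun x : ℝ => -(t * Real.cosh x)) (-(t * Real.sinh u)) u :=
      ((Real.hasDerivAt_cosh u).const_mul t).neg
    have h2 := (Real.hasDerivAt_sinh u).mul h1.exp
    refine h2.congr_deriv ?_
    have h3 := Real.cosh_sq u
    rw [h3]
    ring
  have hint : IntegrableOn (fun u : ℝ => Real.cosh u ^ 1 * Real.exp (-(t * Real.cosh u)) -
        t * (Real.cosh u ^ 2 * Real.exp (-(t * Real.cosh u))) +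
        t * (Real.cosh u ^ 0 * Real.exp (-(t * Real.cosh u)))) (Ioi 0) :=
    ((integrable_k 1 ht).sub ((integrable_k 2 ht).const_mul t)).add
      ((integrable_k 0 ht).const_mul t)
  have hlim : Tendsto (fun u => Real.sinh u * Real.exp (-(t * Real.cosh u))) atTop (𝓝 0) := by
    have hb : Tendsto (fun u : ℝ => (((1 : ℕ).factorial : ℝ) / (t / 2) ^ 1) *
        Real.exp (-(t / 2) * u)) atTop (𝓝 0) := by
      have hb1 : Tendsto (fun u : ℝ => Real.exp (-(t / 2) * u)) atTop (𝓝 0) := by
        apply Real.tendsto_exp_atBot.comp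
        exact tendsto_id.const_mul_atTop_of_neg (by linarith)
      have hb2 := hb1.const_mul (((1 : ℕ).factorial : ℝ) / (t / 2) ^ 1)
      rw [mul_zero] at hb2
      exact hb2
    refine tendsto_of_tendsto_of_tendsto_of_le_of_le' tendsto_const_nhds hb ?_ ?_
    · filter_upwards [eventually_ge_atTop 0] with u hu
      have := Real.sinh_nonneg_iff.2 hu
      positivity
    · filter_upwards [eventually_ge_atTop 0] with u hu
      refine le_trans ?_ (cosh_bound 1 ht hu)
      rw [pow_one]
      exact mul_le_mul_of_nonneg_right (Real.sinh_lt_cosh u).le (Real.exp_pos _).le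
  have h := integral_Ioi_of_hasDerivAt_of_tendsto (hd 0).continuousAt.continuousWithinAt
    (fun u _ => hd u) hint hlim
  rw [Real.sinh_zero, zero_mul, sub_zero] at h
  have i1 := integrable_k 1 ht
  have i2 := (integrable_k 2 ht).const_mul t
  have i0 := (integrable_k 0 ht).const_mul t
  have e1 : ∫ u in Ioi (0:ℝ), (Real.cosh u ^ 1 * Real.exp (-(t * Real.cosh u)) -
        t * (Real.cosh u ^ 2 * Real.exp (-(t * Real.cosh u))) +
        t * (Real.cosh u ^ 0 * Real.exp (-(t * Real.cosh u)))) =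
      FK 1 t - t * FK 2 t + t * FK 0 t := by
    have a1 := integral_add (i1.sub i2) i0
    have a2 := integral_sub i1 i2
    rw [integral_const_mul] at a1 a2
    unfold FK
    rw [← a2]
    exact a1
  rw [← e1]
  exact h

theorem Kb_eq : EC237.Kb = FK 0 := by
  funext t
  simp [EC237.Kb, FK]

theorem thm : EC237.PI.G_KD := by
  refine ⟨FK 1, fun t ht => ⟨?_, ?_⟩⟩
  · rw [Kb_eq]
    exact hasDeriv_FK 0 ht
  · have h := (hasDerivAt_id t).mul (hasDeriv_FK 1 ht)
    have hr := relation ht
    rw [Kb_eq]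
    refine h.congr_deriv ?_
    simp only [id]
    linarith

end Pool.Agent.Helper49.EC.I_KD
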