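import Pool.Agent.Helper38.EC.GoalsE1

/-! Packet RAS: family A, s-channel. -/

set_option autoImplicit false

open MeasureTheory Filter Topology Set

namespace Pool.Agent.Helper49.EC.E_RAS

open EC237 EC237.DX

/-- `c(s)` -/
noncomputable def cc (w : ℂ) (s : ℤ × ℤ) : ℂ := if InCl 2 s then -(2 / 3) * w ^ 3 * nI w s else 0

/-- `u_i(s,k)` -/
noncomputable def uu (w : ℂ) (i : ℕ) (s k : ℤ × ℤ) : ℂ :=
  if InCl 1 k ∧ InCl 1 (s - k) then xc w i 1 (-1) k (s - k) else 0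

/-- `v_j(s,k)` -/
noncomputable def vv (w : ℂ) (j : ℕ) (s k : ℤ × ℤ) : ℂ :=
  if InCl 1 k ∧ InCl 3 (-s - k) then xc w j 1 (-1) k (-s - k) else 0

theorem cl_iff (p : Tri) : ClT 1 1 1 p ↔ (InCl 2 (p.1 + p.2.1) ∧
    (InCl 1 p.1 ∧ InCl 1 (p.1 + p.2.1 - p.1)) ∧
    (InCl 1 p.2.2 ∧ InCl 3 (-(p.1 + p.2.1) - p.2.2))) := by
  obtain ⟨⟨a1, a2⟩, ⟨b1, b2⟩, ⟨c1, c2⟩⟩ := p
  simp only [ClT, InCl, Prod.fst_add, Prod.snd_add, Prod.fst_sub, Prod.snd_sub, Prod.fst_neg,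
    Prod.snd_neg]
  omega

theorem ne_zero (p : Tri) (h : ClT 1 1 1 p) :
    p.1 ≠ 0 ∧ p.2.1 ≠ 0 ∧ p.2.2 ≠ 0 ∧ k4 p ≠ 0 := by
  obtain ⟨⟨a1, a2⟩, ⟨b1, b2⟩, ⟨c1, c2⟩⟩ := p
  simp only [ClT, InCl] at h
  simp only [k4, ne_eq, Prod.ext_iff, Prod.fst_zero, Prod.snd_zero, Prod.fst_add, Prod.snd_add,
    Prod.fst_neg, Prod.snd_neg]
  omega

theorem term_eq (w : ℂ) (i j : ℕ) (p : Tri) :
    cc w (p.1 + p.2.1) * (uu w i (p.1 + p.2.1) p.1 * vv w j (p.1 + p.2.1) p.2.2) =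
      if ClT 1 1 1 p then -(2 / 3) * w ^ 3 * nI w (p.1 + p.2.1) *
        (xc w i 1 (-1) p.1 p.2.1 * xc w j 1 (-1) p.2.2 (k4 p)) else 0 := by
  have e1 : p.1 + p.2.1 - p.1 = p.2.1 := by abel
  have e2 : -(p.1 + p.2.1) - p.2.2 = k4 p := by unfold k4; abel
  by_cases h : ClT 1 1 1 p
  · obtain ⟨h1, h2, h3⟩ := (cl_iff p).1 h
    unfold cc uu vv
    rw [if_pos h, if_pos h1, if_pos h2, if_pos h3, e1, e2]
  · rw [if_neg h]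
    by_cases h1 : InCl 2 (p.1 + p.2.1)
    · by_cases h2 : InCl 1 p.1 ∧ InCl 1 (p.1 + p.2.1 - p.1)
      · have h3 : ¬ (InCl 1 p.2.2 ∧ InCl 3 (-(p.1 + p.2.1) - p.2.2)) := fun h3 =>
          h ((cl_iff p).2 ⟨h1, h2, h3⟩)
        unfold vv
        rw [if_neg h3]
        simp
      · unfold uu
        rw [if_neg h2]
        simp
    · unfold cc
      rw [if_neg h1]
      simp

theorem fam_eq (hXC : G_XC) (w : ℂ) (p : Tri) :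
    famA (fun v1 v2 v3 v4 => PowerSeries.coeff 2 (Qs w v1 v2 v3 v4)) p =
      cc w (p.1 + p.2.1) * (uu w 0 (p.1 + p.2.1) p.1 * vv w 2 (p.1 + p.2.1) p.2.2) +
      cc w (p.1 + p.2.1) * (uu w 1 (p.1 + p.2.1) p.1 * vv w 1 (p.1 + p.2.1) p.2.2) +
      cc w (p.1 + p.2.1) * (uu w 2 (p.1 + p.2.1) p.1 * vv w 0 (p.1 + p.2.1) p.2.2) := by
  rw [term_eq, term_eq, term_eq]
  unfold famA
  by_cases h : ClT 1 1 1 p
  · rw [if_pos h, if_pos h, if_pos h, if_pos h]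
    have h7 := (hXC w).2.2.2.2.2.2.1 1 1 p.1 p.2.1 p.2.2 (k4 p)
    refine h7.trans ?_
    ring
  · rw [if_neg h, if_neg h, if_neg h, if_neg h]
    ring

theorem summ (hXC : G_XC) (hPS : G_PS) {y : ℝ} (hy : 0 < y) (i j : ℕ) (hij : i + j + 0 = 2) :
    Summable (fun p : Tri => cc (y:ℂ) (p.1 + p.2.1) *
      (uu (y:ℂ) i (p.1 + p.2.1) p.1 * vv (y:ℂ) j (p.1 + p.2.1) p.2.2)) := by
  have h := (hPS y hy i j 0 hij 1 (-1) 1 (-1) 0 (by norm_num) (by norm_num) (by norm_num)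
    (by norm_num) (by norm_num)).1
  refine Summable.of_norm_bounded (h.mul_left ‖-(2 / 3) * (y:ℂ) ^ 3‖) fun p => ?_
  rw [term_eq]
  by_cases hc : ClT 1 1 1 p
  · rw [if_pos hc, if_pos (ne_zero p hc)]
    have h9 := (hXC (y:ℂ)).2.2.2.2.2.2.2.2.1 0 (p.1 + p.2.1)
    rw [h9, ← norm_mul, mul_assoc]
  · rw [if_neg hc, norm_zero]
    split_ifs
    · positivity
    · simp

theorem thm (hFUB : G_FUB) (hXC : G_XC) (hSYM : G_SYM) (hPS : G_PS) : G_RAS := by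
  intro y hy
  have hy0 : (y:ℂ) ≠ 0 := by exact_mod_cast hy.ne'
  have hK : -(2 / 3) * (y:ℂ) ^ 3 * 2 ≠ 0 := by
    refine mul_ne_zero (mul_ne_zero (by norm_num) (pow_ne_zero _ hy0)) (by norm_num)
  have s02 := summ hXC hPS hy 0 2 rfl
  have s11 := summ hXC hPS hy 1 1 rfl
  have s20 := summ hXC hPS hy 2 0 rfl
  have f02 := (hFUB (cc (y:ℂ)) (uu (y:ℂ) 0) (vv (y:ℂ) 2)).1 s02
  have f11 := (hFUB (cc (y:ℂ)) (uu (y:ℂ) 1) (vv (y:ℂ) 1)).1 s11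
  have f20 := (hFUB (cc (y:ℂ)) (uu (y:ℂ) 2) (vv (y:ℂ) 0)).1 s20
  have hu : ∀ (i : ℕ) (s : ℤ × ℤ), ∑' k, uu (y:ℂ) i s k = cs (y:ℂ) i 1 1 1 (-1) s :=
    fun i s => rfl
  have hv : ∀ (j : ℕ) (s : ℤ × ℤ), ∑' k, vv (y:ℂ) j s k = cs (y:ℂ) j 1 3 1 (-1) (-s) :=
    fun i s => rfl
  obtain ⟨-, hs2, hs3, hs4, -, -⟩ := hSYM y hy
  have hs_ne : ∀ s : ℤ × ℤ, InCl 2 s → s ≠ 0 := by
    rintro ⟨a, b⟩ h
    simp only [InCl] at h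
    simp only [ne_eq, Prod.ext_iff, Prod.fst_zero, Prod.snd_zero]
    omega
  have e11 : (fun s => cc (y:ℂ) s * ((∑' k, uu (y:ℂ) 1 s k) * ∑' k, vv (y:ℂ) 1 s k)) =
      fun s => (-(2 / 3) * (y:ℂ) ^ 3 * 2) *
        (if InCl 2 s then nI (y:ℂ) s * (Ys (y:ℂ) s * Ws (y:ℂ) s) else 0) := by
    funext s
    rw [hu, hv]
    unfold cc
    by_cases h : InCl 2 s
    · rw [if_pos h, if_pos h, hs4 s (hs_ne s h)]
      unfold Ws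
      ring
    · rw [if_neg h, if_neg h]
      ring
  have e02 : (fun s => cc (y:ℂ) s * ((∑' k, uu (y:ℂ) 0 s k) * ∑' k, vv (y:ℂ) 2 s k)) =
      fun s => 0 := by
    funext s
    rw [hu, hs2]
    ring
  have e20 : (fun s => cc (y:ℂ) s * ((∑' k, uu (y:ℂ) 2 s k) * ∑' k, vv (y:ℂ) 0 s k)) =
      fun s => 0 := by
    funext s
    rw [hu, hs3]
    ring
  have hfam : famA (fun v1 v2 v3 v4 => PowerSeries.coeff 2 (Qs (y:ℂ) v1 v2 v3 v4)) = fun p =>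
      cc (y:ℂ) (p.1 + p.2.1) * (uu (y:ℂ) 0 (p.1 + p.2.1) p.1 * vv (y:ℂ) 2 (p.1 + p.2.1) p.2.2) +
      cc (y:ℂ) (p.1 + p.2.1) * (uu (y:ℂ) 1 (p.1 + p.2.1) p.1 * vv (y:ℂ) 1 (p.1 + p.2.1) p.2.2) +
      cc (y:ℂ) (p.1 + p.2.1) * (uu (y:ℂ) 2 (p.1 + p.2.1) p.1 * vv (y:ℂ) 0 (p.1 + p.2.1) p.2.2) :=
    funext fun p => fam_eq hXC (y:ℂ) p
  refine ⟨?_, ?_, ?_⟩
  · rw [hfam]
    exact (s02.add s11).add s20
  · have h := f11.1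
    rw [e11] at h
    exact (summable_mul_left_iff hK).1 h
  · rw [hfam, Summable.tsum_add (s02.add s11) s20, Summable.tsum_add s02 s11, f02.2, f11.2, f20.2,
      e02, e20, e11, tsum_zero, tsum_mul_left]
    ring

end Pool.Agent.Helper49.EC.E_RAS
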