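import Pool.Agent.Helper23.EC.EGoals

/-! Packet EB1: summability of the one-variable sums. -/

set_option autoImplicit false

open MeasureTheory Filter Topology Set

namespace Pool.Agent.Helper49.EC.E_EB1

open EC237

theorem abs_le_norm (m : ℤ) (t : ℝ) : |(m:ℝ)| ≤ ‖((m:ℂ) + Complex.I * (t:ℂ))‖ := by
  have h := Complex.abs_re_le_norm ((m:ℂ) + Complex.I * (t:ℂ))
  simpa using h

theorem uz_le (z : ℝ) (n m : ℤ) (hm : m ≠ 0) : ‖uz z n m‖ ≤ |(m:ℝ)|⁻¹ := by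
  have h := abs_le_norm m (-(n * z))
  have hm' : 0 < |(m:ℝ)| := abs_pos.2 (by exact_mod_cast hm)
  unfold uz
  rw [norm_inv]
  apply inv_anti₀ hm'
  have e : ((m:ℂ) - Complex.I * n * z) = (m:ℂ) + Complex.I * ((-(n * z) : ℝ) : ℂ) := by
    push_cast
    ring
  rw [e]
  exact h

theorem vz_le (z : ℝ) (n m : ℤ) (hm : m ≠ 0) : ‖vz z n m‖ ≤ |(m:ℝ)|⁻¹ := by
  have h := abs_le_norm m (n * z)
  have hm' : 0 < |(m:ℝ)| := abs_pos.2 (by exact_mod_cast hm)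
  unfold vz
  rw [norm_inv]
  apply inv_anti₀ hm'
  have e : ((m:ℂ) + Complex.I * n * z) = (m:ℂ) + Complex.I * ((n * z : ℝ) : ℂ) := by
    push_cast
    ring
  rw [e]
  exact h

theorem summable_sq : Summable (fun m : ℤ => 1 / (m:ℝ) ^ 2) :=
  Real.summable_one_div_int_pow.2 (by norm_num)

theorem pow_le {a : ℂ} {m : ℤ} (hm : m ≠ 0) (h : ‖a‖ ≤ |(m:ℝ)|⁻¹) {j : ℕ} (hj : 2 ≤ j) :
    ‖a ^ j‖ ≤ 1 / (m:ℝ) ^ 2 := by
  have hm1 : (1:ℝ) ≤ |(m:ℝ)| := by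
    have := Int.one_le_abs hm
    exact_mod_cast this
  have h1 : |(m:ℝ)|⁻¹ ≤ 1 := inv_le_one_of_one_le₀ hm1
  have h2 : ‖a‖ ≤ 1 := h.trans h1
  rw [norm_pow]
  calc ‖a‖ ^ j ≤ ‖a‖ ^ 2 := pow_le_pow_of_le_one (norm_nonneg _) h2 hj
    _ ≤ (|(m:ℝ)|⁻¹) ^ 2 := pow_le_pow_left₀ (norm_nonneg _) h 2
    _ = 1 / (m:ℝ) ^ 2 := by rw [inv_pow, sq_abs, one_div]

theorem part1 {f : ℤ → ℂ} (hf : ∀ m : ℤ, m ≠ 0 → ‖f m‖ ≤ |(m:ℝ)|⁻¹) (c : ℤ) {j : ℕ} (hj : 2 ≤ j) :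
    Summable (fun m : ℤ => if (m - c) % 6 = 0 then f m ^ j else 0) := by
  refine Summable.of_norm_bounded_eventually summable_sq ?_
  have hfin : ∀ᶠ m : ℤ in cofinite, m ≠ 0 := by
    rw [eventually_cofinite]
    simp
  filter_upwards [hfin] with m hm
  split_ifs
  · exact pow_le hm (hf m hm) hj
  · rw [norm_zero]
    positivity

theorem part2 {z : ℝ} (hz : 0 < z) (c n n2 m : ℤ) :
    Summable (fun m1 : ℤ => if (m1 - c) % 6 = 0 then uz z n m1 + vz z n2 (m - m1) else 0) := by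
  set D : ℂ := (m:ℂ) + Complex.I * ((n2:ℂ) - n) * z with hD
  have hsub : Summable (fun m1 : ℤ => 1 / ((m - m1 : ℤ):ℝ) ^ 2) :=
    (Equiv.subLeft m).summable_iff.2 summable_sq
  refine Summable.of_norm_bounded_eventually ((summable_sq.add hsub).mul_left ‖D‖) ?_
  have hfin : ∀ᶠ m1 : ℤ in cofinite, m1 ≠ 0 ∧ m - m1 ≠ 0 := by
    rw [eventually_cofinite]
    refine Set.Finite.subset (Set.toFinite ({0, m} : Set ℤ)) ?_
    intro x hx
    rw [Set.mem_ofPred_eq, not_and_or, not_ne_iff, not_ne_iff] at hx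
    rw [Set.mem_insert_iff, Set.mem_singleton_iff]
    omega
  filter_upwards [hfin] with m1 hm
  obtain ⟨h1, h2⟩ := hm
  split_ifs
  · have hu := uz_le z n m1 h1
    have hv := vz_le z n2 (m - m1) h2
    have hu0 : ((m1:ℂ) - Complex.I * n * z) ≠ 0 := by
      intro h0
      have h := abs_le_norm m1 (-(n * z))
      have e : ((m1:ℂ) - Complex.I * n * z) = (m1:ℂ) + Complex.I * ((-(n * z) : ℝ) : ℂ) := by
        push_cast
        ring
      rw [← e, h0, norm_zero] at h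
      have : 0 < |(m1:ℝ)| := abs_pos.2 (by exact_mod_cast h1)
      linarith
    have hv0 : (((m - m1 : ℤ):ℂ) + Complex.I * n2 * z) ≠ 0 := by
      intro h0
      have h := abs_le_norm (m - m1) (n2 * z)
      have e : (((m - m1 : ℤ):ℂ) + Complex.I * n2 * z) =
          ((m - m1 : ℤ):ℂ) + Complex.I * ((n2 * z : ℝ) : ℂ) := by
        push_cast
        ring
      rw [← e, h0, norm_zero] at h
      have : 0 < |((m - m1 : ℤ):ℝ)| := abs_pos.2 (by exact_mod_cast h2)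
      linarith
    have key : uz z n m1 + vz z n2 (m - m1) = D * (uz z n m1 * vz z n2 (m - m1)) := by
      unfold uz vz
      rw [← mul_inv, inv_add_inv hu0 hv0, div_eq_mul_inv, hD]
      congr 1
      push_cast
      ring
    rw [key, norm_mul, norm_mul]
    refine mul_le_mul_of_nonneg_left ?_ (norm_nonneg _)
    have hb : ‖uz z n m1‖ * ‖vz z n2 (m - m1)‖ ≤ |(m1:ℝ)|⁻¹ * |((m - m1 : ℤ):ℝ)|⁻¹ :=
      mul_le_mul hu hv (norm_nonneg _) (by positivity)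
    have e1 : 1 / (m1:ℝ) ^ 2 = (|(m1:ℝ)|⁻¹) ^ 2 := by rw [inv_pow, sq_abs, one_div]
    have e2 : 1 / ((m - m1 : ℤ):ℝ) ^ 2 = (|((m - m1 : ℤ):ℝ)|⁻¹) ^ 2 := by
      rw [inv_pow, sq_abs, one_div]
    rw [e1, e2]
    have h3 := sq_nonneg (|(m1:ℝ)|⁻¹ - |((m - m1 : ℤ):ℝ)|⁻¹)
    have h4 : 0 ≤ |(m1:ℝ)|⁻¹ := by positivity
    have h5 : 0 ≤ |((m - m1 : ℤ):ℝ)|⁻¹ := by positivity
    nlinarith
  · rw [norm_zero]
    positivity

theorem thm : EC237.EB1 := by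
  intro z hz c n n2 m
  exact ⟨fun j hj => ⟨part1 (fun m hm => uz_le z n m hm) c hj,
    part1 (fun m hm => vz_le z n m hm) c hj⟩, part2 hz c n n2 m⟩

end Pool.Agent.Helper49.EC.E_EB1
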